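import Pool.Agent.helper76.UFG.Spec

set_option autoImplicit false

/-! # Row FIX: integers fixed by all automorphisms over K come from K -/

namespace Pool.Agent.UFG

open Finset NumberField nonZeroDivisors Pool.Agent.UF

theorem FIX (hBSN : BSN_stmt) : FIX_stmt := by
  intro m n K L _ _ _ _ _ _ _ y hn hdvd hy x hx
  have hgal : IsGalois ℚ L := IsCyclotomicExtension.isGalois {n} ℚ L
  have hgal2 : IsGalois K L := IsGalois.tower_top_of_isGalois ℚ K L
  have hfd : FiniteDimensional K L := FiniteDimensional.right ℚ K L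
  have hne : NeZero (2 ^ (m + 1)) := ⟨by positivity⟩
  have hcyc := hBSN n L y hn hy
  have hz := IsCyclotomicExtension.zeta_spec (2 ^ (m + 1)) ℚ K
  have hz' := hz.toInteger_isPrimitiveRoot
  set z : 𝓞 K := hz.toInteger with hzdef
  have hinj : Function.Injective (algebraMap (𝓞 K) (𝓞 L)) := by
    intro a b hab
    apply RingOfIntegers.coe_injective
    apply (algebraMap K L).injective
    have h1 := congrArg (fun t : 𝓞 L => (t : L)) hab
    exact h1
  have hZ : IsPrimitiveRoot (algebraMap (𝓞 K) (𝓞 L) z) (2 ^ (m + 1)) := hz'.map_of_injective hinj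
  set Z : 𝓞 L := algebraMap (𝓞 K) (𝓞 L) z with hZdef
  have hZn : Z ^ n = 1 := (hZ.pow_eq_one_iff_dvd n).2 hdvd
  have hnn : NeZero n := ⟨hn⟩
  obtain ⟨i, -, hi⟩ := hy.eq_pow_of_pow_eq_one hZn
  have hfix : ∀ g : L ≃ₐ[K] L, g (x : L) = (x : L) := by
    intro g
    set s : 𝓞 L ≃+* 𝓞 L := RingOfIntegers.mapRingEquiv g.toRingEquiv with hs
    have hsc : ∀ t : 𝓞 L, ((s t : 𝓞 L) : L) = g (t : L) := fun t => rfl
    obtain ⟨k, hk, hsk⟩ := hcyc.pow hn s
    have hsZ : s Z = Z := by
      apply RingOfIntegers.ext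
      have h1 : ((Z : 𝓞 L) : L) = algebraMap K L (z : K) := rfl
      rw [hsc, h1]
      exact g.commutes _
    have hZk : Z ^ k = Z := by
      rw [← hi, map_pow, hsk] at hsZ
      rw [← hi, ← pow_mul, mul_comm, pow_mul]
      exact hsZ
    have hZ0 : Z ≠ 0 := hZ.ne_zero (by positivity)
    have hmod : k ≡ 1 [MOD 2 ^ (m + 1)] := by
      rcases Nat.eq_zero_or_pos k with h0 | h0
      · exfalso
        rw [h0, pow_zero] at hZk
        have h1 : Z ^ 1 = 1 := by rw [pow_one]; exact hZk.symm
        have h2 := (hZ.pow_eq_one_iff_dvd 1).1 h1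
        have h3 := Nat.le_of_dvd one_pos h2
        have h4 : 2 ≤ 2 ^ (m + 1) := by
          rw [pow_succ]
          have := Nat.one_le_two_pow (n := m)
          omega
        omega
      · have h1 : Z ^ (k - 1) = 1 := by
          have h2 : Z ^ (k - 1) * Z = 1 * Z := by
            rw [← pow_succ, Nat.sub_add_cancel h0, one_mul]
            exact hZk
          exact mul_right_cancel₀ hZ0 h2
        have h2 := (hZ.pow_eq_one_iff_dvd (k - 1)).1 h1
        exact ((Nat.modEq_iff_dvd' h0).2 h2).symm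
    have h5 := hx k s hsk hmod
    rw [← hsc, h5]
  obtain ⟨x0, hx0⟩ := (IsGalois.mem_range_algebraMap_iff_fixed (x : L)).2 hfix
  have hint : IsIntegral ℤ x0 := by
    have h1 : IsIntegral ℤ (algebraMap K L x0) := by
      rw [hx0]
      exact x.isIntegral_coe
    exact (isIntegral_algebraMap_iff (algebraMap K L).injective).1 h1
  refine ⟨⟨x0, hint⟩, ?_⟩
  apply RingOfIntegers.coe_injective
  exact hx0

end Pool.Agent.UFG
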